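import Mathlib

set_option autoImplicit false

namespace Pool.Agent.Results.MP_b9ebd9_co.Tietze

open Finset

variable {V : Type} [Fintype V] [DecidableEq V]

/-- `G` is 3-connected: at least 4 vertices, and deleting at most 2 vertices leaves a
connected graph. -/
def ThreeConnected (G : SimpleGraph V) : Prop :=
  4 ≤ Fintype.card V ∧
    ∀ S : Finset V, S.card ≤ 2 → (G.induce {v : V | v ∉ S}).Connected

/-- A list of cycles of `G` (closed walks that are cycles in the sense of Mathlib). -/
def IsCycleFamily (G : SimpleGraph V) (F : List (Σ u : V, G.Walk u u)) : Prop :=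
  ∀ C ∈ F, C.2.IsCycle

/-- The number of members of the family (with multiplicity) that contain the edge `e`. -/
def cov (G : SimpleGraph V) (F : List (Σ u : V, G.Walk u u)) (e : Sym2 V) : ℕ :=
  F.countP (fun C => decide (e ∈ C.2.edges))

/-- The total length of a family of cycles. -/
def totalLength (G : SimpleGraph V) (F : List (Σ u : V, G.Walk u u)) : ℕ :=
  (F.map (fun C => C.2.length)).sum

/-- `k` is the minimum total length of a cycle cover of `G`, that is, `SCC(G) = k`. -/
def IsSCC (G : SimpleGraph V) (k : ℕ) : Prop :=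
  IsLeast {n : ℕ | ∃ F : List (Σ u : V, G.Walk u u), IsCycleFamily G F ∧
    (∀ e ∈ G.edgeSet, 1 ≤ cov G F e) ∧ totalLength G F = n} k

/-- `k` is the minimum length of a closed walk traversing every edge of `G`,
that is, `CPP(G) = k`. -/
def IsCPP (G : SimpleGraph V) (k : ℕ) : Prop :=
  IsLeast {n : ℕ | ∃ (u : V) (p : G.Walk u u), (∀ e ∈ G.edgeSet, e ∈ p.edges) ∧
    p.length = n} k

/-- The total weight of the edges of `G` between `S` and its complement. -/
def cutWeight (G : SimpleGraph V) [DecidableRel G.Adj] (w : Sym2 V → ℕ) (S : Finset V) : ℕ :=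
  ∑ u ∈ S, ∑ v ∈ Sᶜ, if G.Adj u v then w s(u, v) else 0

/-- `w` is an eulerian weight with values in `{1,2}`. -/
def IsEulerianWeight (G : SimpleGraph V) [DecidableRel G.Adj] (w : Sym2 V → ℕ) : Prop :=
  (∀ e ∈ G.edgeSet, w e = 1 ∨ w e = 2) ∧ ∀ S : Finset V, Even (cutWeight G w S)

/-- `G` is cycle `w`-coverable: some family of cycles has every edge `e` in exactly `w e`
of its members. -/
def CycleCoverable (G : SimpleGraph V) (w : Sym2 V → ℕ) : Prop :=
  ∃ F : List (Σ u : V, G.Walk u u), IsCycleFamily G F ∧ ∀ e ∈ G.edgeSet, cov G F e = w e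

/-- The cycle cover property. -/
def CycleCoverProperty (G : SimpleGraph V) [DecidableRel G.Adj] : Prop :=
  ∀ w : Sym2 V → ℕ, IsEulerianWeight G w → CycleCoverable G w

/-! ### General facts on closed walks -/

lemma sum_count_parity {G : SimpleGraph V} {u v : V} (p : G.Walk u v) (x : V) :
    (∑ y, p.edges.count s(x, y) + (if x = u then 1 else 0) + (if x = v then 1 else 0)) % 2
      = 0 := by
  induction p with
  | nil => simp; split_ifs <;> simp
  | @cons a b c h p ih =>
    have hab : a ≠ b := h.ne
    have key : ∑ y, (SimpleGraph.Walk.cons h p).edges.count s(x, y)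
        = ∑ y, p.edges.count s(x, y) + ((if x = a then 1 else 0) + (if x = b then 1 else 0)) := by
      have h1 : ∀ y, (SimpleGraph.Walk.cons h p).edges.count s(x, y)
          = p.edges.count s(x, y) + (if s(a, b) = s(x, y) then 1 else 0) := by
        intro y
        rw [SimpleGraph.Walk.edges_cons, List.count_cons]
        simp
      simp_rw [h1]
      rw [Finset.sum_add_distrib]
      congr 1
      by_cases hxa : x = a
      · subst hxa
        have : ∀ y, (s(x, b) = s(x, y)) ↔ y = b := by
          intro y
          constructor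
          · intro h2
            rw [Sym2.eq_iff] at h2
            rcases h2 with ⟨_, h2⟩ | ⟨h2, h3⟩
            · exact h2.symm
            · exact absurd h3.symm hab
          · rintro rfl; rfl
        simp_rw [this]
        simp [hab]
      · by_cases hxb : x = b
        · subst hxb
          have : ∀ y, (s(a, x) = s(x, y)) ↔ y = a := by
            intro y
            constructor
            · intro h2
              rw [Sym2.eq_iff] at h2
              rcases h2 with ⟨h2, _⟩ | ⟨h2, _⟩
              · exact absurd h2.symm hxa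
              · exact h2.symm
            · rintro rfl; exact Sym2.eq_swap
          simp_rw [this]
          simp [hxa]
        · have : ∀ y, ¬ (s(a, b) = s(x, y)) := by
            intro y h2
            rw [Sym2.eq_iff] at h2
            rcases h2 with ⟨h2, _⟩ | ⟨_, h2⟩
            · exact hxa h2.symm
            · exact hxb h2.symm
          simp [this, hxa, hxb]
    rw [key]
    split_ifs at * <;> omega

lemma closed_even {G : SimpleGraph V} {u : V} (p : G.Walk u u) (x : V) :
    Even (∑ y, p.edges.count s(x, y)) := by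
  have := sum_count_parity p x
  rw [Nat.even_iff]
  split_ifs at this <;> omega

lemma double_count {G : SimpleGraph V} {u v : V} (p : G.Walk u v) :
    ∑ x, ∑ y, p.edges.count s(x, y) = 2 * p.length := by
  induction p with
  | nil => simp
  | @cons a b c h p ih =>
    have hab : a ≠ b := h.ne
    have h1 : ∀ x y, (SimpleGraph.Walk.cons h p).edges.count s(x, y)
        = p.edges.count s(x, y) + (if s(a, b) = s(x, y) then 1 else 0) := by
      intro x y
      rw [SimpleGraph.Walk.edges_cons, List.count_cons]
      simp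
    simp_rw [h1, Finset.sum_add_distrib]
    rw [ih, SimpleGraph.Walk.length_cons]
    have h2 : ∑ x, ∑ y, (if s(a, b) = s(x, y) then (1 : ℕ) else 0) = 2 := by
      have h3 : ∀ x y, (if s(a, b) = s(x, y) then (1 : ℕ) else 0)
          = (if x = a ∧ y = b then 1 else 0) + (if x = b ∧ y = a then 1 else 0) := by
        intro x y
        by_cases hA : x = a ∧ y = b
        · obtain ⟨rfl, rfl⟩ := hA
          have : ¬ (x = y ∧ y = x) := fun h => hab h.1
          simp [this]
        · by_cases hB : x = b ∧ y = a
          · obtain ⟨rfl, rfl⟩ := hB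
            have : ¬ (x = y ∧ y = x) := fun h => hab h.2
            simp [this, Sym2.eq_swap]
          · have : ¬ (s(a, b) = s(x, y)) := by
              intro h2
              rw [Sym2.eq_iff] at h2
              rcases h2 with ⟨h2, h3⟩ | ⟨h2, h3⟩
              · exact hA ⟨h2.symm, h3.symm⟩
              · exact hB ⟨h3.symm, h2.symm⟩
            simp [this, hA, hB]
      simp_rw [h3, Finset.sum_add_distrib]
      simp [ite_and]
    rw [h2]
    ring

/-- If `n` is a number attached to pairs of adjacent vertices of a cubic graph,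
at least one on each edge and of even sum at each vertex, its total is at least `4 |V|`. -/
lemma lower_bound (G : SimpleGraph V) [DecidableRel G.Adj] (hG : G.IsRegularOfDegree 3)
    (n : V → V → ℕ) (h1 : ∀ x y, G.Adj x y → 1 ≤ n x y) (h2 : ∀ x, Even (∑ y, n x y)) :
    4 * Fintype.card V ≤ ∑ x, ∑ y, n x y := by
  have h3 : ∀ x, 4 ≤ ∑ y, n x y := by
    intro x
    have h4 : 3 ≤ ∑ y, n x y := by
      calc 3 = (G.neighborFinset x).card := by rw [SimpleGraph.card_neighborFinset_eq_degree, hG x]
        _ = ∑ y ∈ G.neighborFinset x, 1 := by simp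
        _ ≤ ∑ y ∈ G.neighborFinset x, n x y := by
            apply Finset.sum_le_sum
            intro y hy
            exact h1 x y (by simpa using hy)
        _ ≤ ∑ y, n x y := Finset.sum_le_sum_of_subset (Finset.subset_univ _)
    have h5 := h2 x
    rw [Nat.even_iff] at h5
    omega
  calc 4 * Fintype.card V = ∑ _x : V, 4 := by simp [mul_comm]
    _ ≤ _ := Finset.sum_le_sum (fun x _ => h3 x)

lemma count_isTrail {G : SimpleGraph V} {u : V} {p : G.Walk u u} (hp : p.IsCycle)
    (e : Sym2 V) : p.edges.count e = if e ∈ p.edges then 1 else 0 := by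
  have hnd : p.edges.Nodup := hp.edges_nodup
  split_ifs with h
  · exact List.count_eq_one_of_mem hnd h
  · exact List.count_eq_zero_of_not_mem h

lemma cov_nil (G : SimpleGraph V) (e : Sym2 V) : cov G [] e = 0 := rfl

lemma cov_cons (G : SimpleGraph V) (C : Σ u : V, G.Walk u u)
    (F : List (Σ u : V, G.Walk u u)) (hC : C.2.IsCycle) (e : Sym2 V) :
    cov G (C :: F) e = cov G F e + C.2.edges.count e := by
  unfold cov
  rw [List.countP_cons, count_isTrail hC]
  simp

lemma family_even {G : SimpleGraph V} (F : List (Σ u : V, G.Walk u u))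
    (hF : IsCycleFamily G F) (x : V) : Even (∑ y, cov G F s(x, y)) := by
  induction F with
  | nil => simp [cov_nil]
  | cons C F ih =>
    have hC : C.2.IsCycle := hF C (by simp)
    have hF' : IsCycleFamily G F := fun D hD => hF D (by simp [hD])
    simp_rw [cov_cons G C F hC, Finset.sum_add_distrib]
    exact (ih hF').add (closed_even C.2 x)

lemma family_double {G : SimpleGraph V} (F : List (Σ u : V, G.Walk u u))
    (hF : IsCycleFamily G F) : ∑ x, ∑ y, cov G F s(x, y) = 2 * totalLength G F := by
  induction F with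
  | nil => simp [cov_nil, totalLength]
  | cons C F ih =>
    have hC : C.2.IsCycle := hF C (by simp)
    have hF' : IsCycleFamily G F := fun D hD => hF D (by simp [hD])
    simp_rw [cov_cons G C F hC, Finset.sum_add_distrib]
    rw [ih hF', double_count]
    simp [totalLength]
    ring

lemma scc_lower (G : SimpleGraph V) [DecidableRel G.Adj] (hG : G.IsRegularOfDegree 3)
    (F : List (Σ u : V, G.Walk u u)) (hF : IsCycleFamily G F)
    (hcov : ∀ e ∈ G.edgeSet, 1 ≤ cov G F e) : 2 * Fintype.card V ≤ totalLength G F := by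
  have := lower_bound G hG (fun x y => cov G F s(x, y))
    (fun x y hxy => hcov _ ((SimpleGraph.mem_edgeSet G).2 hxy)) (family_even F hF)
  rw [family_double F hF] at this
  omega

lemma cpp_lower (G : SimpleGraph V) [DecidableRel G.Adj] (hG : G.IsRegularOfDegree 3)
    {u : V} (p : G.Walk u u) (hp : ∀ e ∈ G.edgeSet, e ∈ p.edges) :
    2 * Fintype.card V ≤ p.length := by
  have := lower_bound G hG (fun x y => p.edges.count s(x, y))
    (fun x y hxy => by
      have := hp _ ((SimpleGraph.mem_edgeSet G).2 hxy)
      exact List.count_pos_iff.2 this) (closed_even p)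
  rw [double_count] at this
  omega

/-! ### Tietze's graph -/

/-- The adjacency of Tietze's graph: the Petersen graph with one vertex replaced by the
triangle `9, 10, 11`. -/
def tEdges : List (Fin 12 × Fin 12) :=
  [(0, 1), (1, 2), (2, 3), (3, 4), (4, 0),
   (0, 5), (1, 6), (2, 7), (3, 8), (4, 9),
   (5, 7), (7, 11), (6, 10), (6, 8), (8, 5),
   (9, 10), (10, 11), (11, 9)]

/-- Tietze's graph. -/
def T : SimpleGraph (Fin 12) where
  Adj x y := (x, y) ∈ tEdges ∨ (y, x) ∈ tEdges
  symm := ⟨fun _ _ h => h.symm⟩
  loopless := ⟨fun x => by revert x; decide⟩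

instance : DecidableRel T.Adj := fun x y => by unfold T; infer_instance

/-- The weight: 2 on the perfect matching consisting of the five spokes and `10 11`,
and 1 elsewhere. -/
def badW (e : Sym2 (Fin 12)) : ℕ :=
  if e ∈ ([s(0, 5), s(1, 6), s(2, 7), s(3, 8), s(4, 9), s(10, 11)] : List (Sym2 (Fin 12)))
  then 2 else 1

lemma T_regular : T.IsRegularOfDegree 3 := by
  unfold SimpleGraph.IsRegularOfDegree
  decide +kernel

/-- A rank function on the vertices outside `S` that decreases along some edge outside `S`
and has a single zero shows that the graph minus `S` is connected. -/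
lemma connected_of_rank (G : SimpleGraph V) (S : Finset V) (f : V → ℕ) (r : V) (hr : r ∉ S)
    (h0 : ∀ v, v ∉ S → f v = 0 → v = r)
    (h : ∀ v, v ∉ S → f v ≠ 0 → ∃ u, u ∉ S ∧ G.Adj v u ∧ f u < f v) :
    (G.induce {v : V | v ∉ S}).Connected := by
  have key : ∀ n : ℕ, ∀ v (hv : v ∉ S), f v = n →
      (G.induce {v : V | v ∉ S}).Reachable ⟨v, hv⟩ ⟨r, hr⟩ := by
    intro n
    induction n using Nat.strong_induction_on with
    | _ n ih =>
      intro v hv hfv
      by_cases hz : f v = 0
      · have := h0 v hv hz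
        subst this
        exact SimpleGraph.Reachable.refl _
      · obtain ⟨u, hu, hadj, hlt⟩ := h v hv hz
        have h1 := ih (f u) (by omega) u hu rfl
        have h2 : (G.induce {v : V | v ∉ S}).Adj ⟨v, hv⟩ ⟨u, hu⟩ := by
          simpa using hadj
        exact h2.reachable.trans h1
  have : Nonempty {v : V | v ∉ S} := ⟨⟨r, hr⟩⟩
  refine ⟨fun x y => ?_⟩
  exact (key _ x.1 x.2 rfl).trans (key _ y.1 y.2 rfl).symm

/-- Breadth-first distances in Tietze's graph minus two vertices, in base 16. -/
def tab : List ℕ :=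
  [55190886752527, 38697976336639, 55191423696655, 55190886871311, 55190887538959,
   55190899335439, 57463159333135, 55194376413455, 55246721327375, 56015520473359, 69553257390351,
   266297119285519, 38697976336639, 56221710230512, 56221710233584, 56221710283760,
   57458661733360, 56226573526000, 56221911557104, 56225199891440, 56277561582576, 58214575055856,
   69415849763824, 267327942763504, 55191423696655, 56221710233584, 56221693456144,
   56221693509392, 56359133331216, 56226539974416, 56221911559952, 56225183117072, 56277528030992,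
   57115046653712, 69415832989456, 267327925989136, 55190886871311, 56221710283760,
   56221693509392, 56221693506064, 56359133377040, 56226271588880, 56221911609872, 56225183166992,
   56277528080912, 57115046703632, 69415833039376, 267327926039056, 55190887538959,
   57458661733360, 56359133331216, 56359133377040, 56359133327888, 73955897455120, 57458863059472,
   73954809033232, 56414967902736, 57115047571984, 69553272861200, 267465365860880,
   55190899335439, 56226573526000, 56226539974416, 56226271588880, 73955897455120, 56226271535632,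
   56226489639440, 56229492761104, 56277811143184, 74711810777616, 69420411068944,
   267332504068624, 57463159333135, 56221911557104, 56221911559952, 56221911609872,
   57458863059472, 56226489639440, 56221911556624, 56225401217552, 56277746131472, 58214776381968,
   69416051089936, 267328144089616, 55194376413455, 56225199891440, 56225183117072,
   56225183166992, 73954809033232, 56229492761104, 56225401217552, 56225183113744, 56281017688592,
   74710722355728, 69419322647056, 267331415646736, 55246721327375, 56277561582576,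
   56277528030992, 56277528080912, 56414967902736, 56277811143184, 56277746131472, 56281017688592,
   56277528027664, 57170881225232, 69471667560976, 267383760560656, 56015520473359,
   58214575055856, 57115046653712, 57115046703632, 57115047571984, 74711810777616, 58214776381968,
   74710722355728, 57170881225232, 57115046650384, 70309186183696, 268221279183376,
   69553257390351, 69415849763824, 69415832989456, 69415833039376, 69553272861200, 69420411068944,
   69416051089936, 69419322647056, 69471667560976, 70309186183696, 69415832986128,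
   280522065519120, 266297119285519, 267327942763504, 267327925989136, 267327926039056,
   267465365860880, 267332504068624, 267328144089616, 267331415646736, 267383760560656,
   268221279183376, 280522065519120, 267327925985808]

/-- The rank of `v` in Tietze's graph minus `a` and `b`. -/
def rk (a b v : Fin 12) : ℕ := (tab.getD (12 * a.1 + b.1) 0) / 16 ^ v.1 % 16

/-- The rank of `v` in Tietze's graph. -/
def rk0 (v : Fin 12) : ℕ := 56221693452816 / 16 ^ v.1 % 16

/-- The root used when `a` and `b` are deleted. -/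
def rt (a b : Fin 12) : Fin 12 :=
  if a ≠ 0 ∧ b ≠ 0 then 0 else if a ≠ 1 ∧ b ≠ 1 then 1 else 2

lemma rt_check : ∀ a b : Fin 12, rt a b ≠ a ∧ rt a b ≠ b := by
  decide +kernel

lemma rk_check1 : ∀ a b v : Fin 12, v ≠ a ∧ v ≠ b → rk a b v = 0 → v = rt a b := by
  decide +kernel

lemma rk_check2 : ∀ a b v : Fin 12, v ≠ a ∧ v ≠ b → rk a b v ≠ 0 →
      ∃ u : Fin 12, (u ≠ a ∧ u ≠ b) ∧ T.Adj v u ∧ rk a b u < rk a b v := by
  decide +kernel

lemma rk0_check : ∃ r : Fin 12,
    (∀ v, rk0 v = 0 → v = r) ∧
    (∀ v, rk0 v ≠ 0 → ∃ u, T.Adj v u ∧ rk0 u < rk0 v) := by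
  decide +kernel

lemma T_three_connected : ThreeConnected T := by
  refine ⟨by simp, ?_⟩
  intro S hS
  have hcases : S = ∅ ∨ ∃ a b : Fin 12, S = {a, b} := by
    rcases Nat.lt_or_ge S.card 1 with h | h
    · left
      exact Finset.card_eq_zero.1 (by omega)
    · rcases Nat.lt_or_ge S.card 2 with h' | h'
      · obtain ⟨a, ha⟩ := Finset.card_eq_one.1 (show S.card = 1 by omega)
        exact Or.inr ⟨a, a, by simp [ha]⟩
      · obtain ⟨a, b, _, hab⟩ := Finset.card_eq_two.1 (show S.card = 2 by omega)
        exact Or.inr ⟨a, b, hab⟩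
  rcases hcases with rfl | ⟨a, b, rfl⟩
  · obtain ⟨r, h0, h1⟩ := rk0_check
    apply connected_of_rank T ∅ rk0 r (by simp)
    · intro v _ hv
      exact h0 v hv
    · intro v _ hv
      obtain ⟨u, hu⟩ := h1 v hv
      exact ⟨u, by simp, hu⟩
  · apply connected_of_rank T {a, b} (rk a b) (rt a b) (by simpa using rt_check a b)
    · intro v hv h
      exact rk_check1 a b v (by simpa using hv) h
    · intro v hv h
      obtain ⟨u, hu, h2⟩ := rk_check2 a b v (by simpa using hv) h
      exact ⟨u, by simpa using hu, h2⟩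

/-! ### The cover of total length 24 and the postman tour of length 24 -/

def c1 : T.Walk 0 0 :=
  .cons (by decide : T.Adj 0 1) <| .cons (by decide : T.Adj 1 2) <|
  .cons (by decide : T.Adj 2 3) <| .cons (by decide : T.Adj 3 8) <|
  .cons (by decide : T.Adj 8 5) <| .cons (by decide : T.Adj 5 0) .nil

def c2 : T.Walk 0 0 :=
  .cons (by decide : T.Adj 0 1) <| .cons (by decide : T.Adj 1 6) <|
  .cons (by decide : T.Adj 6 10) <| .cons (by decide : T.Adj 10 9) <|
  .cons (by decide : T.Adj 9 4) <| .cons (by decide : T.Adj 4 0) .nil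

def c3 : T.Walk 5 5 :=
  .cons (by decide : T.Adj 5 7) <| .cons (by decide : T.Adj 7 11) <|
  .cons (by decide : T.Adj 11 10) <| .cons (by decide : T.Adj 10 6) <|
  .cons (by decide : T.Adj 6 8) <| .cons (by decide : T.Adj 8 5) .nil

def c4 : T.Walk 2 2 :=
  .cons (by decide : T.Adj 2 3) <| .cons (by decide : T.Adj 3 4) <|
  .cons (by decide : T.Adj 4 9) <| .cons (by decide : T.Adj 9 11) <|
  .cons (by decide : T.Adj 11 7) <| .cons (by decide : T.Adj 7 2) .nil

/-- The family of four 6-cycles. -/
def fam : List (Σ u : Fin 12, T.Walk u u) := [⟨0, c1⟩, ⟨0, c2⟩, ⟨5, c3⟩, ⟨2, c4⟩]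

/-- The postman tour. -/
def tour : T.Walk 0 0 :=
  .cons (by decide : T.Adj 0 1) <| .cons (by decide : T.Adj 1 2) <|
  .cons (by decide : T.Adj 2 3) <| .cons (by decide : T.Adj 3 4) <|
  .cons (by decide : T.Adj 4 9) <| .cons (by decide : T.Adj 9 11) <|
  .cons (by decide : T.Adj 11 7) <| .cons (by decide : T.Adj 7 2) <|
  .cons (by decide : T.Adj 2 3) <| .cons (by decide : T.Adj 3 8) <|
  .cons (by decide : T.Adj 8 5) <| .cons (by decide : T.Adj 5 7) <|
  .cons (by decide : T.Adj 7 11) <| .cons (by decide : T.Adj 11 10) <|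
  .cons (by decide : T.Adj 10 6) <| .cons (by decide : T.Adj 6 8) <|
  .cons (by decide : T.Adj 8 5) <| .cons (by decide : T.Adj 5 0) <|
  .cons (by decide : T.Adj 0 1) <| .cons (by decide : T.Adj 1 6) <|
  .cons (by decide : T.Adj 6 10) <| .cons (by decide : T.Adj 10 9) <|
  .cons (by decide : T.Adj 9 4) <| .cons (by decide : T.Adj 4 0) .nil

lemma edge_cases {P : Sym2 (Fin 12) → Prop} (h : ∀ x y, T.Adj x y → P s(x, y)) :
    ∀ e ∈ T.edgeSet, P e := by
  intro e
  induction e with
  | _ x y => exact fun he => h x y he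

lemma c1_cycle : c1.IsCycle := by
  rw [SimpleGraph.Walk.isCycle_def]
  refine ⟨?_, ?_, ?_⟩
  · rw [SimpleGraph.Walk.isTrail_def]; decide
  · simp [c1]
  · decide

lemma c2_cycle : c2.IsCycle := by
  rw [SimpleGraph.Walk.isCycle_def]
  refine ⟨?_, ?_, ?_⟩
  · rw [SimpleGraph.Walk.isTrail_def]; decide
  · simp [c2]
  · decide

lemma c3_cycle : c3.IsCycle := by
  rw [SimpleGraph.Walk.isCycle_def]
  refine ⟨?_, ?_, ?_⟩
  · rw [SimpleGraph.Walk.isTrail_def]; decide
  · simp [c3]
  · decide

lemma c4_cycle : c4.IsCycle := by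
  rw [SimpleGraph.Walk.isCycle_def]
  refine ⟨?_, ?_, ?_⟩
  · rw [SimpleGraph.Walk.isTrail_def]; decide
  · simp [c4]
  · decide

lemma fam_isCycleFamily : IsCycleFamily T fam := by
  intro C hC
  simp only [fam, List.mem_cons, List.not_mem_nil, or_false] at hC
  rcases hC with rfl | rfl | rfl | rfl
  · exact c1_cycle
  · exact c2_cycle
  · exact c3_cycle
  · exact c4_cycle

lemma fam_covers : ∀ e ∈ T.edgeSet, 1 ≤ cov T fam e := by
  apply edge_cases
  decide +kernel

lemma fam_length : totalLength T fam = 24 := by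
  decide +kernel

lemma tour_covers : ∀ e ∈ T.edgeSet, e ∈ tour.edges := by
  apply edge_cases
  decide +kernel

lemma tour_length : tour.length = 24 := by
  decide +kernel

lemma T_scc : IsSCC T 24 := by
  refine ⟨⟨fam, fam_isCycleFamily, fam_covers, fam_length⟩, ?_⟩
  rintro n ⟨F, hF, hcov, rfl⟩
  have := scc_lower T T_regular F hF hcov
  simpa using this

lemma T_cpp : IsCPP T 24 := by
  refine ⟨⟨0, tour, tour_covers, tour_length⟩, ?_⟩
  rintro n ⟨u, p, hp, rfl⟩
  have := cpp_lower T T_regular p hp
  simpa using this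

/-! ### The weight `badW` is eulerian and not coverable -/

lemma even_double_sum (f : V → V → ℕ) (hs : ∀ x y, f x y = f y x) (h0 : ∀ x, f x x = 0)
    (S : Finset V) : Even (∑ x ∈ S, ∑ y ∈ S, f x y) := by
  induction S using Finset.induction_on with
  | empty => simp
  | insert a S ha ih =>
    rw [Finset.sum_insert ha]
    simp_rw [Finset.sum_insert ha]
    rw [h0, Finset.sum_add_distrib]
    have : ∑ x ∈ S, f x a = ∑ x ∈ S, f a x := Finset.sum_congr rfl (fun x _ => hs x a)
    rw [this]
    obtain ⟨k, hk⟩ := ih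
    exact ⟨∑ x ∈ S, f a x + k, by omega⟩

lemma badW_eulerian : IsEulerianWeight T badW := by
  refine ⟨?_, ?_⟩
  · apply edge_cases
    decide +kernel
  · intro S
    set f : Fin 12 → Fin 12 → ℕ := fun x y => if T.Adj x y then badW s(x, y) else 0 with hf
    have hs : ∀ x y, f x y = f y x := by
      rw [hf]; decide +kernel
    have h0 : ∀ x, f x x = 0 := by
      rw [hf]; decide +kernel
    have hdeg : ∀ x, ∑ y, f x y = 4 := by
      rw [hf]; decide +kernel
    have h1 : ∑ x ∈ S, ∑ y, f x y = ∑ x ∈ S, ∑ y ∈ S, f x y + cutWeight T badW S := by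
      unfold cutWeight
      rw [← Finset.sum_add_distrib]
      apply Finset.sum_congr rfl
      intro x _
      exact (Finset.sum_add_sum_compl S (fun y => f x y)).symm
    have h2 : ∑ x ∈ S, ∑ y, f x y = 4 * S.card := by
      simp_rw [hdeg]
      simp [mul_comm]
    obtain ⟨k, hk⟩ := even_double_sum f hs h0 S
    rw [Nat.even_iff]
    omega

lemma countP_eq_card {α : Type} (P : α → Prop) [DecidablePred P] (F : List α) :
    F.countP (fun a => decide (P a)) = (univ.filter (fun i : Fin F.length => P (F.get i))).card := by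
  induction F with
  | nil => simp
  | cons a F ih =>
    rw [List.countP_cons, ih]
    have := Fin.card_filter_univ_succ (n := F.length)
      (p := fun i : Fin (F.length + 1) => P ((a :: F).get i))
    simp only [List.length_cons]
    rw [this]
    simp only [List.get_cons_zero, List.get_cons_succ]
    by_cases h : P a <;> simp [h, add_comm]

lemma vertex_parity {p : Σ u : Fin 12, T.Walk u u} (hp : p.2.IsCycle) (x a b c : Fin 12)
    (hx : (∀ y, T.Adj x y → y = a ∨ y = b ∨ y = c) ∧ a ≠ b ∧ a ≠ c ∧ b ≠ c) :
    Even ((if s(x, a) ∈ p.2.edges then 1 else 0) + (if s(x, b) ∈ p.2.edges then 1 else 0)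
      + (if s(x, c) ∈ p.2.edges then 1 else 0)) := by
  obtain ⟨h, hab, hac, hbc⟩ := hx
  have h1 := closed_even p.2 x
  have h2 : ∑ y, p.2.edges.count s(x, y) = ∑ y ∈ ({a, b, c} : Finset (Fin 12)),
      p.2.edges.count s(x, y) := by
    symm
    apply Finset.sum_subset (Finset.subset_univ _)
    intro y _ hy
    apply List.count_eq_zero_of_not_mem
    intro hmem
    have := SimpleGraph.Walk.adj_of_mem_edges p.2 hmem
    rcases h y this with rfl | rfl | rfl <;> simp at hy
  rw [h2, Finset.sum_insert (by simp [hab, hac]), Finset.sum_insert (by simp [hbc]),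
    Finset.sum_singleton] at h1
  simp only [count_isTrail hp] at h1
  rw [add_assoc]
  exact h1

lemma labels {n : ℕ} {A B C : Finset (Fin n)} {i j : Fin n} (hA : A = {i}) (hB : B = {j})
    (hC : C.card = 2)
    (hpar : ∀ k, Even ((if k ∈ A then 1 else 0) + (if k ∈ B then 1 else 0)
      + (if k ∈ C then 1 else 0))) : i ≠ j ∧ C = {i, j} := by
  subst hA hB
  have hmem : ∀ k, k ∈ C ↔ ¬ (k = i ↔ k = j) := by
    intro k
    have := hpar k
    simp only [Finset.mem_singleton] at this
    by_cases h1 : k = i <;> by_cases h2 : k = j <;> by_cases h3 : k ∈ C <;>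
      simp [h1, h2, h3, Nat.even_iff] at this ⊢ <;> simp_all
  have hij : i ≠ j := by
    rintro rfl
    have : C = ∅ := by
      ext k
      simp [hmem k]
    rw [this] at hC
    simp at hC
  refine ⟨hij, ?_⟩
  ext k
  rw [hmem k]
  simp only [Finset.mem_insert, Finset.mem_singleton]
  constructor
  · intro h
    by_contra h2
    push Not at h2
    exact h ⟨fun h3 => absurd h3 h2.1, fun h3 => absurd h3 h2.2⟩
  · rintro (rfl | rfl) h
    · exact hij (h.1 rfl)
    · exact hij (h.2 rfl).symm

lemma pair_cases {n : ℕ} {C : Finset (Fin n)} {a b c d : Fin n} (h1 : C = {a, b})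
    (h2 : C = {c, d}) (hab : a ≠ b) : (a = c ∧ b = d) ∨ (a = d ∧ b = c) := by
  have ha : a ∈ C := by rw [h1]; simp
  have hb : b ∈ C := by rw [h1]; simp
  rw [h2] at ha hb
  simp only [Finset.mem_insert, Finset.mem_singleton] at ha hb
  rcases ha with rfl | rfl <;> rcases hb with rfl | rfl <;> simp_all

lemma badW_not_coverable : ¬ CycleCoverable T badW := by
  rintro ⟨F, hF, hcov⟩
  set S : Fin 12 → Fin 12 → Finset (Fin F.length) := fun x y =>
    univ.filter (fun i => s(x, y) ∈ (F.get i).2.edges) with hS
  have hcard : ∀ x y, T.Adj x y → (S x y).card = badW s(x, y) := by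
    intro x y hxy
    rw [← hcov s(x, y) ((SimpleGraph.mem_edgeSet T).2 hxy)]
    unfold cov
    rw [hS]
    exact (countP_eq_card (fun C : (Σ u : Fin 12, T.Walk u u) => s(x, y) ∈ C.2.edges) F).symm
  have hsymm : ∀ x y, S x y = S y x := by
    intro x y
    rw [hS]
    simp only [Sym2.eq_swap (a := x) (b := y)]
  have hpar : ∀ x a b c, ((∀ y, T.Adj x y → y = a ∨ y = b ∨ y = c) ∧ a ≠ b ∧ a ≠ c ∧ b ≠ c) →
      ∀ k, Even ((if k ∈ S x a then 1 else 0) + (if k ∈ S x b then 1 else 0)
        + (if k ∈ S x c then 1 else 0)) := by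
    intro x a b c h k
    have h1 := vertex_parity (hF (F.get k) (List.get_mem F k)) x a b c h
    simpa [hS] using h1
  obtain ⟨p0, hp0⟩ := Finset.card_eq_one.1 (hcard 0 1 (by decide))
  obtain ⟨p1, hp1⟩ := Finset.card_eq_one.1 (hcard 1 2 (by decide))
  obtain ⟨p2, hp2⟩ := Finset.card_eq_one.1 (hcard 2 3 (by decide))
  obtain ⟨p3, hp3⟩ := Finset.card_eq_one.1 (hcard 3 4 (by decide))
  obtain ⟨p4, hp4⟩ := Finset.card_eq_one.1 (hcard 4 0 (by decide))
  obtain ⟨q0, hq0⟩ := Finset.card_eq_one.1 (hcard 5 7 (by decide))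
  obtain ⟨q1, hq1⟩ := Finset.card_eq_one.1 (hcard 7 11 (by decide))
  obtain ⟨q2, hq2⟩ := Finset.card_eq_one.1 (hcard 11 9 (by decide))
  obtain ⟨q3, hq3⟩ := Finset.card_eq_one.1 (hcard 9 10 (by decide))
  obtain ⟨q4, hq4⟩ := Finset.card_eq_one.1 (hcard 10 6 (by decide))
  obtain ⟨q5, hq5⟩ := Finset.card_eq_one.1 (hcard 6 8 (by decide))
  obtain ⟨q6, hq6⟩ := Finset.card_eq_one.1 (hcard 8 5 (by decide))
  have v0 := labels ((hsymm 0 4).trans hp4) hp0 (hcard 0 5 (by decide))
    (hpar 0 4 1 5 (by decide))
  have v1 := labels ((hsymm 1 0).trans hp0) hp1 (hcard 1 6 (by decide))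
    (hpar 1 0 2 6 (by decide))
  have v2 := labels ((hsymm 2 1).trans hp1) hp2 (hcard 2 7 (by decide))
    (hpar 2 1 3 7 (by decide))
  have v3 := labels ((hsymm 3 2).trans hp2) hp3 (hcard 3 8 (by decide))
    (hpar 3 2 4 8 (by decide))
  have v4 := labels ((hsymm 4 3).trans hp3) hp4 (hcard 4 9 (by decide))
    (hpar 4 3 0 9 (by decide))
  have v5 := labels hq0 ((hsymm 5 8).trans hq6) (hcard 5 0 (by decide))
    (hpar 5 7 8 0 (by decide))
  have v6 := labels ((hsymm 6 10).trans hq4) hq5 (hcard 6 1 (by decide))
    (hpar 6 10 8 1 (by decide))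
  have v7 := labels ((hsymm 7 5).trans hq0) hq1 (hcard 7 2 (by decide))
    (hpar 7 5 11 2 (by decide))
  have v8 := labels ((hsymm 8 6).trans hq5) hq6 (hcard 8 3 (by decide))
    (hpar 8 6 5 3 (by decide))
  have v9 := labels ((hsymm 9 11).trans hq2) hq3 (hcard 9 4 (by decide))
    (hpar 9 11 10 4 (by decide))
  have v10 := labels ((hsymm 10 9).trans hq3) hq4 (hcard 10 11 (by decide))
    (hpar 10 9 6 11 (by decide))
  have v11 := labels ((hsymm 11 7).trans hq1) hq2 (hcard 11 10 (by decide))
    (hpar 11 7 9 10 (by decide))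
  have e05 := pair_cases v0.2 ((hsymm 0 5).trans v5.2) v0.1
  have e16 := pair_cases v1.2 ((hsymm 1 6).trans v6.2) v1.1
  have e27 := pair_cases v2.2 ((hsymm 2 7).trans v7.2) v2.1
  have e38 := pair_cases v3.2 ((hsymm 3 8).trans v8.2) v3.1
  have e49 := pair_cases v4.2 ((hsymm 4 9).trans v9.2) v4.1
  have e1011 := pair_cases v10.2 ((hsymm 10 11).trans v11.2) v10.1
  have n0 := v0.1
  have n1 := v1.1
  have n2 := v2.1
  have n3 := v3.1
  have n4 := v4.1
  have n5 := v5.1
  have n6 := v6.1
  have n7 := v7.1
  have n8 := v8.1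
  have n9 := v9.1
  have n10 := v10.1
  have n11 := v11.1
  clear v0 v1 v2 v3 v4 v5 v6 v7 v8 v9 v10 v11 hp0 hp1 hp2 hp3 hp4 hq0 hq1 hq2 hq3 hq4 hq5 hq6
    hpar hsymm hcard hcov hF hS
  rcases e05 with ⟨rfl, rfl⟩ | ⟨rfl, rfl⟩ <;> rcases e16 with ⟨rfl, rfl⟩ | ⟨rfl, rfl⟩ <;>
    rcases e27 with ⟨h1, h2⟩ | ⟨h1, h2⟩ <;> rcases e38 with ⟨h3, h4⟩ | ⟨h3, h4⟩ <;>
    rcases e49 with ⟨h5, h6⟩ | ⟨h5, h6⟩ <;> rcases e1011 with ⟨h7, h8⟩ | ⟨h7, h8⟩ <;>
    subst_vars <;> simp_all

/-- There is a 3-connected graph (Tietze's graph) with `SCC = CPP` and with an eulerian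
weight in `{1,2}` for which it has no cycle cover. -/
theorem result :
    ∃ G : SimpleGraph (Fin 12), ∃ _ : DecidableRel G.Adj,
      ThreeConnected G ∧ (∃ k : ℕ, IsSCC G k ∧ IsCPP G k) ∧
        ∃ w : Sym2 (Fin 12) → ℕ, IsEulerianWeight G w ∧ ¬ CycleCoverable G w :=
  ⟨T, inferInstance, T_three_connected, ⟨24, T_scc, T_cpp⟩, badW, badW_eulerian,
    badW_not_coverable⟩

end Pool.Agent.Results.MP_b9ebd9_co.Tietze
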